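import Pool.Agent.Lib_helper41.TK.Defs
import Pool.Agent.Lib_helper31.LKF.KF
import Pool.Agent.Lib_helper68.KSLF.HIR

/-! TK, block AB. -/

set_option autoImplicit false

namespace Pool.Agent.TK

open Pool.Agent.LEV Pool.Agent.LVB Pool.Agent.KSL
open Pool.Agent.LK (PQ)
open Pool.Agent.FG61 (mu phi cc ff AA Lam)
open Complex MeasureTheory Filter Topology UpperHalfPlane ModularGroup ProbabilityTheory
open scoped MatrixGroups Modular ENNReal ModularForm ComplexConjugate ContDiff

section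
variable {q : ℕ} [NeZero q]

theorem gauss_norm {χ : DirichletCharacter ℂ q} (hχ : PQ χ) :
    ‖gaussSum χ ZMod.stdAddChar‖ ^ 2 = q := by
  rw [← norm_pow, Pool.Agent.LK.kf_gauss hχ, norm_mul]
  have h1 : ‖χ (-1)‖ = 1 := by
    have h := congrArg norm (Pool.Agent.LK.kf_m1 χ)
    rw [norm_mul, norm_one] at h
    have h0 := norm_nonneg (χ (-1))
    nlinarith
  rw [h1, mul_one, Complex.norm_natCast]

/-- `e(x)` -/
noncomputable def ab_E (x : ℝ) : ℂ := cexp (2 * Real.pi * Complex.I * x)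

theorem ab_E_add (x y : ℝ) : ab_E (x + y) = ab_E x * ab_E y := by
  unfold ab_E
  rw [← Complex.exp_add]
  congr 1
  push_cast
  ring

theorem ab_E_int (n : ℤ) : ab_E n = 1 := by
  unfold ab_E
  rw [Complex.exp_eq_one_iff]
  exact ⟨n, by push_cast; ring⟩

theorem ab_E_one (x : ℝ) (h : ab_E x = 1) : ∃ n : ℤ, x = n := by
  unfold ab_E at h
  rw [Complex.exp_eq_one_iff] at h
  obtain ⟨n, hn⟩ := h
  refine ⟨n, ?_⟩
  have h2 : (2 * Real.pi * Complex.I : ℂ) ≠ 0 := by
    simp [Real.pi_ne_zero]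
  have h3 : (x : ℂ) = n := by
    apply mul_left_cancel₀ h2
    rw [hn]
    ring
  exact_mod_cast h3

theorem ab_E_pow (x : ℝ) (l : ℕ) : ab_E x ^ l = ab_E (x * l) := by
  unfold ab_E
  rw [← Complex.exp_nat_mul]
  congr 1
  push_cast
  ring

theorem ab_range_mul (F : ℕ → ℂ) (q k : ℕ) :
    ∑ j ∈ Finset.range (q * k), F j =
      ∑ l ∈ Finset.range k, ∑ i ∈ Finset.range q, F (i + q * l) := by
  induction k with
  | zero => simp
  | succ k ih =>
    rw [mul_add, mul_one, Finset.sum_range_add, ih, Finset.sum_range_succ]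
    congr 1
    exact Finset.sum_congr rfl fun i _ => by rw [add_comm]

theorem ab_crt {Q d : ℕ} (hQ : 1 ≤ Q) (hd : 1 ≤ d) (hc : d.Coprime Q) (F : ℕ → ℂ)
    (hF : ∀ j, F (j % (Q * d)) = F j) :
    ∑ j ∈ Finset.range (Q * d), F j =
      ∑ a ∈ Finset.range Q, ∑ b ∈ Finset.range d, F (a * d + b * Q) := by
  rw [← Finset.sum_product']
  symm
  have hpos : 0 < Q * d := Nat.mul_pos hQ hd
  have hmaps : ∀ x ∈ Finset.range Q ×ˢ Finset.range d,
      (x.1 * d + x.2 * Q) % (Q * d) ∈ Finset.range (Q * d) :=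
    fun x _ => Finset.mem_range.2 (Nat.mod_lt _ hpos)
  have hinj : Set.InjOn (fun x : ℕ × ℕ => (x.1 * d + x.2 * Q) % (Q * d))
      (Finset.range Q ×ˢ Finset.range d : Finset (ℕ × ℕ)) := by
    rintro ⟨a, b⟩ hx ⟨a', b'⟩ hx' h
    rw [Finset.mem_coe, Finset.mem_product, Finset.mem_range, Finset.mem_range] at hx hx'
    have h1 : a * d + b * Q ≡ a' * d + b' * Q [MOD Q * d] := h
    have h2 : a * d ≡ a' * d [MOD Q] := by
      have h3 := h1.of_mul_right d
      unfold Nat.ModEq at h3 ⊢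
      simpa using h3
    have h4 : b * Q ≡ b' * Q [MOD d] := by
      have h3 := h1.of_mul_left Q
      unfold Nat.ModEq at h3 ⊢
      simpa using h3
    have h5 : a ≡ a' [MOD Q] := Nat.ModEq.cancel_right_of_coprime hc.symm h2
    have h6 : b ≡ b' [MOD d] := Nat.ModEq.cancel_right_of_coprime hc h4
    have h7 := Nat.ModEq.eq_of_lt_of_lt h5 hx.1 hx'.1
    have h8 := Nat.ModEq.eq_of_lt_of_lt h6 hx.2 hx'.2
    exact Prod.ext h7 h8
  have hsurj := Finset.surjOn_of_injOn_of_card_le
    (fun x : ℕ × ℕ => (x.1 * d + x.2 * Q) % (Q * d)) hmaps hinj (by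
      rw [Finset.card_product, Finset.card_range, Finset.card_range, Finset.card_range])
  exact Finset.sum_nbij (fun x : ℕ × ℕ => (x.1 * d + x.2 * Q) % (Q * d)) hmaps hinj hsurj
    (fun x _ => (hF _).symm)

theorem ab_zmod (F : ZMod q → ℂ) : ∑ a : ZMod q, F a = ∑ i ∈ Finset.range q, F (i : ZMod q) := by
  refine Finset.sum_nbij' ZMod.val (fun i : ℕ => (i : ZMod q)) ?_ ?_ ?_ ?_ ?_
  · exact fun a _ => Finset.mem_range.2 (ZMod.val_lt a)
  · exact fun i _ => Finset.mem_univ _
  · exact fun a _ => ZMod.natCast_zmod_val a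
  · exact fun i hi => ZMod.val_cast_of_lt (Finset.mem_range.1 hi)
  · intro a _
    rw [ZMod.natCast_zmod_val]

theorem ab_gauss {χ : DirichletCharacter ℂ q} (hχ : PQ χ) (m : ℤ) :
    ∑ i ∈ Finset.range q, χ i * ab_E (m * (i / q)) = χ (m : ZMod q) * gaussSum χ ZMod.stdAddChar := by
  have h1 := gaussSum_mulShift_of_isPrimitive (ZMod.stdAddChar (N := q)) hχ.prim (m : ZMod q)
  rw [Pool.Agent.LK.kf_inv hχ] at h1
  rw [← h1]
  unfold gaussSum
  rw [ab_zmod]
  refine Finset.sum_congr rfl fun i _ => ?_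
  congr 1
  rw [AddChar.mulShift_apply]
  have h2 : (m : ZMod q) * (i : ZMod q) = ((m * i : ℤ) : ZMod q) := by push_cast; rfl
  rw [h2, ZMod.stdAddChar_coe]
  unfold ab_E
  congr 1
  push_cast
  ring

theorem ab_geom {k : ℕ} (hk : 1 ≤ k) (n : ℤ) :
    ∑ l ∈ Finset.range k, ab_E (n * (l / k)) = if (k : ℤ) ∣ n then (k : ℂ) else 0 := by
  have hk0 : (k : ℝ) ≠ 0 := by
    have : k ≠ 0 := by omega
    exact_mod_cast this
  have h1 : ∀ l : ℕ, ab_E (n * (l / k)) = ab_E (n / k) ^ l := by
    intro l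
    rw [ab_E_pow]
    congr 1
    ring
  rw [Finset.sum_congr rfl fun l _ => h1 l]
  split_ifs with hn
  · obtain ⟨m, rfl⟩ := hn
    have h2 : ab_E (((k * m : ℤ) : ℝ) / k) = 1 := by
      rw [← ab_E_int m]
      congr 1
      push_cast
      field_simp
    rw [h2]
    simp
  · have h3 : ab_E (n / k) ≠ 1 := by
      intro h4
      obtain ⟨m, hm⟩ := ab_E_one _ h4
      apply hn
      refine ⟨m, ?_⟩
      have h5 : (n : ℝ) = k * m := by
        rw [← hm]
        field_simp
      exact_mod_cast h5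
    have h5 := geom_sum_mul (ab_E (n / k)) k
    have h6 : ab_E (n / k) ^ k = 1 := by
      rw [ab_E_pow, ← ab_E_int n]
      congr 1
      field_simp
    rw [h6, sub_self] at h5
    exact (mul_eq_zero.1 h5).resolve_right (sub_ne_zero.2 h3)

theorem ab_one {χ : DirichletCharacter ℂ q} (hχ : PQ χ) {k : ℕ} (hk : 1 ≤ k) (n : ℤ) :
    ∑ a ∈ Finset.range (q * k), χ a * ab_E (n * (a / (q * k : ℕ))) =
      if (k : ℤ) ∣ n then (k : ℂ) * χ ((n / (k : ℤ) : ℤ) : ZMod q) * gaussSum χ ZMod.stdAddChar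
      else 0 := by
  have hq0 : (q : ℝ) ≠ 0 := by exact_mod_cast NeZero.ne q
  have hk0 : (k : ℝ) ≠ 0 := by
    have : k ≠ 0 := by omega
    exact_mod_cast this
  rw [ab_range_mul]
  have h1 : ∀ l i : ℕ, χ ((i + q * l : ℕ) : ZMod q) * ab_E (n * ((i + q * l : ℕ) / (q * k : ℕ))) =
      ab_E (n * (l / k)) * (χ i * ab_E (n * (i / (q * k : ℕ)))) := by
    intro l i
    have h2 : ((i + q * l : ℕ) : ZMod q) = i := by
      push_cast
      rw [ZMod.natCast_self, zero_mul, add_zero]
    have h3 : (n : ℝ) * ((i + q * l : ℕ) / (q * k : ℕ)) = n * (l / k) + n * (i / (q * k : ℕ)) := by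
      push_cast
      field_simp
      ring
    rw [h2, h3, ab_E_add]
    ring
  rw [Finset.sum_congr rfl fun l _ => Finset.sum_congr rfl fun i _ => h1 l i,
    ← Finset.sum_mul_sum, ab_geom hk]
  split_ifs with hn
  · obtain ⟨m, rfl⟩ := hn
    have hk1 : (k : ℤ) ≠ 0 := by omega
    rw [Int.mul_ediv_cancel_left _ hk1, mul_assoc, ← ab_gauss hχ m]
    congr 1
    refine Finset.sum_congr rfl fun i _ => ?_
    congr 2
    push_cast
    field_simp
  · rw [zero_mul]

theorem ab_ram {d : ℕ} (hd : 1 ≤ d) (n : ℤ) :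
    ∑ b ∈ RR d, ab_E (n * (b / d)) = (cc d n.natAbs : ℂ) := by
  obtain ⟨m, rfl | rfl⟩ := Int.eq_nat_or_neg n
  · rw [Int.natAbs_natCast, ← ram_sum d m hd]
    refine Finset.sum_congr rfl fun b _ => ?_
    unfold ab_E
    congr 1
    push_cast
    ring
  · have h1 := congrArg (starRingEnd ℂ) (ram_sum d m hd)
    rw [Complex.conj_ofReal] at h1
    rw [Int.natAbs_neg, Int.natAbs_natCast, ← h1, map_sum]
    refine Finset.sum_congr rfl fun b _ => ?_
    unfold ab_E
    rw [← Complex.exp_conj]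
    congr 1
    simp only [map_mul, Complex.conj_ofReal, Complex.conj_I, map_natCast, map_ofNat]
    push_cast
    ring

/-- the character sums over the reduced fractions with denominator `q k d` -/
theorem char_sum {χ : DirichletCharacter ℂ q} (hχ : PQ χ) {k d : ℕ} (hk : 1 ≤ k)
    (hkq : k.primeFactors ⊆ q.primeFactors) (hd : 1 ≤ d) (hdq : d.Coprime q) (n : ℤ) :
    ∑ j ∈ RR (q * (k * d)), χ j *
      cexp (2 * Real.pi * Complex.I * n * (((j : ℝ) / ((q * (k * d) : ℕ) : ℝ) : ℝ) : ℂ)) =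
    if (k : ℤ) ∣ n then (k : ℂ) * χ d * χ ((n / (k : ℤ) : ℤ) : ZMod q) *
      gaussSum χ ZMod.stdAddChar * (cc d n.natAbs : ℂ) else 0 := by
  have hq0 : q ≠ 0 := NeZero.ne q
  have hq1 : 1 ≤ q := Nat.one_le_iff_ne_zero.2 hq0
  have hQ : 1 ≤ q * k := Nat.mul_pos hq1 hk
  have hdk : d.Coprime k := by
    rw [← Nat.disjoint_primeFactors (by omega) (by omega)]
    exact hdq.disjoint_primeFactors.mono_right hkq
  have hdQ : d.Coprime (q * k) := hdq.mul_right hdk
  have hqR : (q : ℝ) ≠ 0 := by exact_mod_cast hq0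
  have hkR : (k : ℝ) ≠ 0 := by
    have : k ≠ 0 := by omega
    exact_mod_cast this
  have hdR : (d : ℝ) ≠ 0 := by
    have : d ≠ 0 := by omega
    exact_mod_cast this
  set F : ℕ → ℂ := fun j => if d.Coprime j then χ j * ab_E (n * (j / (q * k * d : ℕ))) else 0
    with hFdef
  have hF : ∀ j, F (j % (q * k * d)) = F j := by
    intro j
    have h1 : F (j % (q * k * d)) = F (j % (q * k * d) + q * k * d * (j / (q * k * d))) := by
      set r := j % (q * k * d)
      set s := j / (q * k * d)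
      have h2 : d.Coprime (r + q * k * d * s) ↔ d.Coprime r := by
        rw [show r + q * k * d * s = r + d * (q * k * s) by ring, Nat.coprime_add_mul_left_right]
      have h3 : ((r + q * k * d * s : ℕ) : ZMod q) = r := by
        push_cast
        rw [ZMod.natCast_self]
        ring
      have h4 : ab_E (n * ((r + q * k * d * s : ℕ) / (q * k * d : ℕ))) =
          ab_E (n * (r / (q * k * d : ℕ))) := by
        have h5 : (n : ℝ) * ((r + q * k * d * s : ℕ) / (q * k * d : ℕ)) =
            n * (r / (q * k * d : ℕ)) + ((n * s : ℤ) : ℝ) := by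
          push_cast
          field_simp
        rw [h5, ab_E_add, ab_E_int, mul_one]
      simp only [hFdef]
      rw [h3, h4]
      simp only [h2]
    rw [h1, Nat.mod_add_div]
  have h1 : ∑ j ∈ RR (q * (k * d)), χ j *
      cexp (2 * Real.pi * Complex.I * n * (((j : ℝ) / ((q * (k * d) : ℕ) : ℝ) : ℝ) : ℂ)) =
      ∑ j ∈ Finset.range (q * k * d), F j := by
    unfold RR
    rw [← mul_assoc, Finset.sum_filter]
    refine Finset.sum_congr rfl fun j _ => ?_
    have h2 : cexp (2 * Real.pi * Complex.I * n * (((j : ℝ) / ((q * k * d : ℕ) : ℝ) : ℝ) : ℂ)) =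
        ab_E (n * (j / (q * k * d : ℕ))) := by
      unfold ab_E
      congr 1
      push_cast
      ring
    rw [h2]
    simp only [hFdef]
    by_cases hj : (q * k * d).Coprime j
    · rw [if_pos hj, if_pos (Nat.Coprime.coprime_mul_left hj)]
    · rw [if_neg hj]
      split_ifs with hj2
      · have h3 : ¬ q.Coprime j := by
          intro h4
          apply hj
          refine Nat.Coprime.mul_left (Nat.Coprime.mul_left h4 ?_) hj2
          rcases Nat.eq_zero_or_pos j with rfl | hj0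
          · have h5 : q = 1 := by simpa using h4
            exact absurd h5 (Pool.Agent.LK.kf_q hχ)
          · rw [← Nat.disjoint_primeFactors (by omega) (by omega)]
            exact h4.disjoint_primeFactors.mono_left hkq
        have h4 : χ (j : ZMod q) = 0 := by
          apply χ.map_nonunit
          rw [ZMod.isUnit_iff_coprime]
          exact fun h5 => h3 h5.symm
        rw [h4, zero_mul]
      · rfl
  rw [h1, ab_crt hQ hd hdQ F hF]
  have h2 : ∀ a b : ℕ, F (a * d + b * (q * k)) =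
      (χ a * ab_E (n * (a / (q * k : ℕ)))) * (χ d * if d.Coprime b then ab_E (n * (b / d)) else 0) := by
    intro a b
    have h3 : d.Coprime (a * d + b * (q * k)) ↔ d.Coprime b := by
      rw [show a * d + b * (q * k) = b * (q * k) + d * a by ring, Nat.coprime_add_mul_left_right,
        Nat.coprime_mul_iff_right]
      exact ⟨fun h => h.1, fun h => ⟨h, hdQ⟩⟩
    have h4 : ((a * d + b * (q * k) : ℕ) : ZMod q) = a * d := by
      push_cast
      rw [ZMod.natCast_self]
      ring
    have h5 : (n : ℝ) * ((a * d + b * (q * k) : ℕ) / (q * k * d : ℕ)) =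
        n * (a / (q * k : ℕ)) + n * (b / d) := by
      push_cast
      field_simp
    simp only [hFdef]
    rw [h4, h5, ab_E_add, map_mul]
    simp only [h3]
    split_ifs
    · ring
    · ring
  rw [Finset.sum_congr rfl fun a _ => Finset.sum_congr rfl fun b _ => h2 a b,
    ← Finset.sum_mul_sum, ← Finset.mul_sum, ab_one hχ hk, ← Finset.sum_filter]
  have h3 := ab_ram hd n
  unfold RR at h3
  rw [h3]
  split_ifs
  · ring
  · ring

end

end Pool.Agent.TK
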