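import Pool.Agent.Lib_helper41.TK.Defs2
import Pool.Agent.Lib_helper41.TK.W.AC
import Pool.Agent.Lib_helper41.TK.W.TB

/-! TK, block TL. -/

set_option autoImplicit false

namespace Pool.Agent.TK

open Pool.Agent.LEV Pool.Agent.LVB Pool.Agent.KSL
open Pool.Agent.LK (PQ)
open Pool.Agent.FG61 (mu phi cc ff AA Lam)
open Complex MeasureTheory Filter Topology UpperHalfPlane ModularGroup ProbabilityTheory
open scoped MatrixGroups Modular ENNReal ModularForm ComplexConjugate ContDiff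

theorem tl_QI {q X k : ℕ} : k ∈ QI q X ↔ 1 ≤ k ∧ k ≤ X ∧ k.primeFactors ⊆ q.primeFactors := by
  unfold QI
  rw [Finset.mem_filter, Finset.mem_Icc, and_assoc]

theorem tl_supp {q : ℕ} {δ ε : ℝ} {n : ℕ} {a : ℕ → ℝ} (ha : ShC q (zz n) (KA ε n) a) {d : ℕ}
    (hd0 : 1 ≤ d) (hd : wwC q δ ε n a d ≠ 0) : 1 ≤ d ∧ d ≤ QQ δ ε n ∧ d.Coprime q :=
  wAC_supp ha.sup hd0 hd

section
variable {q : ℕ} [NeZero q]

theorem tl_norm (χ : DirichletCharacter ℂ q) {m : ℤ} (hm : m ≠ 0) :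
    ‖χ ((m / (qs q m.natAbs : ℤ) : ℤ) : ZMod q)‖ = 1 := by
  have hq : 1 ≤ q := Nat.one_le_iff_ne_zero.2 (NeZero.ne q)
  have hm1 : 1 ≤ m.natAbs := Nat.one_le_iff_ne_zero.2 (Int.natAbs_ne_zero.2 hm)
  obtain ⟨h1, -, h3, h4, -⟩ := qs_qr hq hm1
  have hs : (qs q m.natAbs : ℤ) ≠ 0 := by omega
  have hu : IsUnit ((qr q m.natAbs : ℕ) : ZMod q) := (ZMod.isUnit_iff_coprime _ _).2 h3
  have key : m / (qs q m.natAbs : ℤ) = qr q m.natAbs ∨
      m / (qs q m.natAbs : ℤ) = -(qr q m.natAbs : ℤ) := by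
    rcases Int.natAbs_eq m with h | h
    · left
      have h5 : m = (qs q m.natAbs : ℤ) * qr q m.natAbs := by
        rw [← Nat.cast_mul, h1]
        exact h
      exact Int.ediv_eq_of_eq_mul_right hs h5
    · right
      have h5 : m = (qs q m.natAbs : ℤ) * -(qr q m.natAbs : ℤ) := by
        rw [mul_neg, ← Nat.cast_mul, h1]
        exact h
      exact Int.ediv_eq_of_eq_mul_right hs h5
  have hu2 : IsUnit ((m / (qs q m.natAbs : ℤ) : ℤ) : ZMod q) := by
    rcases key with h | h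
    · rw [h, Int.cast_natCast]
      exact hu
    · rw [h, Int.cast_neg, Int.cast_natCast]
      exact hu.neg
  obtain ⟨u, hu3⟩ := hu2
  rw [← hu3]
  exact χ.unit_norm_eq_one u

/-- the Fourier coefficients of the weights of the mollified twist -/
theorem gT_vv {χ : DirichletCharacter ℂ q} (hχ : PQ χ) (δ ε : ℝ) (n X : ℕ) (a : ℕ → ℕ → ℝ)
    (ha : ∀ k ∈ QI q X, ShC q (zz n) (KA ε n) (a k)) (D : ℝ) {m : ℤ} (hm : m ≠ 0) :
    ‖gT (QC q δ ε n X) (tw χ (vv q δ ε n X a)) D m‖ ^ 2 =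
      if qs q m.natAbs ∈ QI q X then (qs q m.natAbs : ℝ) *
        TT (QQ δ ε n) (wwC q δ ε n (a (qs q m.natAbs))) (D / (q * qs q m.natAbs))
          (qr q m.natAbs) ^ 2 else 0 := by
  have hq : 1 ≤ q := Nat.one_le_iff_ne_zero.2 (NeZero.ne q)
  have hqR : (0 : ℝ) < q := by exact_mod_cast hq
  unfold QC
  rw [gT_tw hχ _ _ _ hm]
  set k := qs q m.natAbs with hk
  set r := qr q m.natAbs with hr
  rw [norm_mul, norm_mul, hk, tl_norm χ hm, ← hk, mul_one, Complex.norm_natCast, Complex.norm_real,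
    Real.norm_eq_abs, mul_pow, sq_abs]
  split_ifs with h
  · have h1 := h
    rw [tl_QI] at h1
    have hkR : (0 : ℝ) < k := by exact_mod_cast h1.1
    have hsum : ∑ d ∈ (Finset.Icc 1 (X * QQ δ ε n)).filter (fun d : ℕ => d.Coprime q ∧
        k * d ≤ X * QQ δ ε n ∧ D < q * (k * d)), vv q δ ε n X a k d * cc d r =
        (1 / Real.sqrt k) * TT (QQ δ ε n) (wwC q δ ε n (a k)) (D / (q * k)) r := by
      unfold TT
      rw [Finset.mul_sum]
      have h2 : ∀ d, vv q δ ε n X a k d * cc d r =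
          1 / Real.sqrt k * (wwC q δ ε n (a k) d * cc d r) := by
        intro d
        unfold vv
        rw [if_pos h]
        ring
      rw [Finset.sum_congr rfl fun d _ => h2 d]
      refine (Finset.sum_subset_zero_on_sdiff (s₁ := (Finset.Icc 1 (QQ δ ε n)).filter
        (fun d : ℕ => D / (q * k) < d ∧ wwC q δ ε n (a k) d ≠ 0)) ?_ ?_ fun _ _ => rfl).symm.trans
        (Finset.sum_subset_zero_on_sdiff ?_ ?_ fun _ _ => rfl)
      · intro d hd
        rw [Finset.mem_filter, Finset.mem_Icc] at hd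
        obtain ⟨⟨h3, h4⟩, h5, h6⟩ := hd
        obtain ⟨-, -, h7⟩ := tl_supp (ha k h) h3 h6
        rw [Finset.mem_filter, Finset.mem_Icc]
        refine ⟨⟨h3, h4.trans (Nat.le_mul_of_pos_left _ (h1.1.trans h1.2.1))⟩, h7,
          Nat.mul_le_mul h1.2.1 h4, ?_⟩
        rw [div_lt_iff₀ (by positivity)] at h5
        linarith
      · intro d hd
        rw [Finset.mem_sdiff, Finset.mem_filter, Finset.mem_filter, Finset.mem_Icc,
          Finset.mem_Icc] at hd
        obtain ⟨⟨⟨h3, h4⟩, h5, h6, h7⟩, h8⟩ := hd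
        by_contra h9
        have h10 : wwC q δ ε n (a k) d ≠ 0 := by
          intro h11
          apply h9
          rw [h11]
          ring
        apply h8
        refine ⟨⟨h3, (tl_supp (ha k h) h3 h10).2.1⟩, ?_, h10⟩
        rw [div_lt_iff₀ (by positivity)]
        linarith
      · intro d hd
        rw [Finset.mem_filter] at hd ⊢
        exact ⟨hd.1, hd.2.1⟩
      · intro d hd
        rw [Finset.mem_sdiff, Finset.mem_filter, Finset.mem_filter] at hd
        by_contra h9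
        apply hd.2
        refine ⟨hd.1.1, hd.1.2, fun h11 => h9 ?_⟩
        rw [h11]
        ring
    rw [hsum, mul_pow, one_div, inv_pow, Real.sq_sqrt hkR.le]
    field_simp
  · rw [Finset.sum_eq_zero fun d _ => ?_]
    · ring
    · unfold vv
      rw [if_neg h, zero_mul]

theorem gE_vv {χ : DirichletCharacter ℂ q} (hχ : PQ χ) (δ ε : ℝ) (n X : ℕ) (a : ℕ → ℕ → ℝ)
    (ha : ∀ k ∈ QI q X, ShC q (zz n) (KA ε n) (a k)) :
    gE (QC q δ ε n X) (tw χ (vv q δ ε n X a)) =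
      ∑ k ∈ QI q X, phi q / q * ∑ d ∈ Finset.Icc 1 (QQ δ ε n), phi d * wwC q δ ε n (a k) d ^ 2 := by
  have hq : 1 ≤ q := Nat.one_le_iff_ne_zero.2 (NeZero.ne q)
  unfold QC
  rw [gE_tw hχ, ← Finset.mul_sum]
  congr 1
  rw [← Finset.sum_product']
  have h1 : ∑ m ∈ Finset.Icc 1 (X * QQ δ ε n),
      (qs q m : ℝ) * phi (qr q m) * vv q δ ε n X a (qs q m) (qr q m) ^ 2 =
      ∑ m ∈ (Finset.Icc 1 (X * QQ δ ε n)).filter (fun m => qs q m ∈ QI q X ∧ qr q m ≤ QQ δ ε n),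
        (qs q m : ℝ) * phi (qr q m) * vv q δ ε n X a (qs q m) (qr q m) ^ 2 := by
    rw [Finset.sum_filter]
    refine Finset.sum_congr rfl fun m hm => ?_
    split_ifs with h
    · rfl
    · unfold vv
      split_ifs with h2
      · have h3 : wwC q δ ε n (a (qs q m)) (qr q m) = 0 := by
          by_contra h4
          exact h ⟨h2, (tl_supp (ha _ h2) (qs_qr hq (Finset.mem_Icc.1 hm).1).2.2.2.2 h4).2.1⟩
        rw [h3]
        ring
      · ring
  have h2 : ∑ x ∈ QI q X ×ˢ Finset.Icc 1 (QQ δ ε n),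
      phi x.2 * wwC q δ ε n (a x.1) x.2 ^ 2 =
      ∑ x ∈ (QI q X ×ˢ Finset.Icc 1 (QQ δ ε n)).filter (fun x => x.2.Coprime q),
        phi x.2 * wwC q δ ε n (a x.1) x.2 ^ 2 := by
    rw [Finset.sum_filter]
    refine Finset.sum_congr rfl fun x hx => ?_
    split_ifs with h
    · rfl
    · have h3 : wwC q δ ε n (a x.1) x.2 = 0 := by
        by_contra h4
        exact h (tl_supp (ha _ (Finset.mem_product.1 hx).1)
          (Finset.mem_Icc.1 (Finset.mem_product.1 hx).2).1 h4).2.2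
      rw [h3]
      ring
  rw [h1, h2]
  refine Finset.sum_nbij' (fun m => (qs q m, qr q m)) (fun x => x.1 * x.2) ?_ ?_ ?_ ?_ ?_
  · intro m hm
    rw [Finset.mem_filter, Finset.mem_Icc] at hm
    obtain ⟨-, -, h5, -, h7⟩ := qs_qr hq hm.1.1
    rw [Finset.mem_filter, Finset.mem_product, Finset.mem_Icc]
    exact ⟨⟨hm.2.1, h7, hm.2.2⟩, h5⟩
  · intro x hx
    rw [Finset.mem_filter, Finset.mem_product, Finset.mem_Icc, tl_QI] at hx
    obtain ⟨⟨⟨h3, h4, h5⟩, h6, h7⟩, h8⟩ := hx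
    obtain ⟨h9, h10⟩ := qs_mul hq h3 h5 h6 h8
    rw [Finset.mem_filter, Finset.mem_Icc, h9, h10, tl_QI]
    exact ⟨⟨Nat.mul_pos h3 h6, Nat.mul_le_mul h4 h7⟩, ⟨h3, h4, h5⟩, h7⟩
  · intro m hm
    rw [Finset.mem_filter, Finset.mem_Icc] at hm
    exact (qs_qr hq hm.1.1).1
  · intro x hx
    rw [Finset.mem_filter, Finset.mem_product, Finset.mem_Icc, tl_QI] at hx
    obtain ⟨⟨⟨h3, h4, h5⟩, h6, h7⟩, h8⟩ := hx
    obtain ⟨h9, h10⟩ := qs_mul hq h3 h5 h6 h8
    exact Prod.ext h9 h10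
  · intro m hm
    rw [Finset.mem_filter, Finset.mem_Icc] at hm
    obtain ⟨-, -, -, h6, -⟩ := qs_qr hq hm.1.1
    have h7 : (0 : ℝ) < qs q m := by exact_mod_cast h6
    show _ = phi (qr q m) * wwC q δ ε n (a (qs q m)) (qr q m) ^ 2
    unfold vv
    rw [if_pos hm.2.1, mul_pow, one_div, inv_pow, Real.sq_sqrt h7.le]
    field_simp

end

end Pool.Agent.TK
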